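import Pool.Agent.N98.VH.Asm3
import Pool.Agent.N98.SS.Fin2
import Pool.Agent.H176.DT.H14
import Pool.Agent.Results.MP_1a953e_ag.SupportReduction

/-!
# From log uniformization over a separable lift to semistable models
-/

set_option autoImplicit false

universe u

namespace Pool.Agent.V5helper93.TS

open IsLocalRing Pool.Agent.H176.DT Pool.Agent.N98.VG
open Pool.Agent.W418.LU2 hiding chart
open Pool.Agent.Results.MP_1a953e_ag.SeparableUniformization
open Pool.Agent.Results.MP_1a953e_ag.SupportReduction (IsUniformizableOn)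

section facts

variable {L : Type u} [Field L] {V : ValuationSubring L} {D : Subring L} {ρ : L}

/-- A uniformizer at the centre is a nonzero nonunit of the valuation ring. -/
lemma unif_nonunit (hρD : ρ ∈ D)
    (hQ : ∃ (_ : IsDiscreteValuationRing (lo V.toSubring D)) (h : ρ ∈ lo V.toSubring D),
      maximalIdeal (lo V.toSubring D) = Ideal.span {⟨ρ, h⟩}) :
    ρ ≠ 0 ∧ V.valuation ρ < 1 := by
  obtain ⟨hdvr, hρQ, hmax⟩ := hQ
  have hρ0 : ρ ≠ 0 := by
    intro h0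
    apply IsDiscreteValuationRing.not_a_field (lo V.toSubring D)
    rw [hmax, Ideal.span_singleton_eq_bot]
    exact Subtype.ext h0
  refine ⟨hρ0, ?_⟩
  by_contra hcon
  push Not at hcon
  have h1 : ρ⁻¹ ∈ V := by
    rw [← V.valuation_le_one_iff, map_inv₀]
    exact (inv_le_one₀ (zero_lt_iff.2 ((_root_.map_ne_zero _).2 hρ0))).2 hcon
  have h2 : ρ⁻¹ ∈ lo V.toSubring D := ⟨1, one_mem _, ρ, hρD, hρ0, h1, by rw [one_mul]⟩
  have h3 : IsUnit (⟨ρ, hρQ⟩ : lo V.toSubring D) :=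
    IsUnit.of_mul_eq_one ⟨ρ⁻¹, h2⟩ (Subtype.ext (mul_inv_cancel₀ hρ0))
  have h4 : (⟨ρ, hρQ⟩ : lo V.toSubring D) ∈ maximalIdeal (lo V.toSubring D) := by
    rw [hmax]
    exact Ideal.mem_span_singleton_self _
  exact (mem_maximalIdeal _).1 h4 h3

/-- The units at the centre are units of the valuation ring. -/
lemma val_unit (hDV : D ≤ V.toSubring) (u : (lo V.toSubring D)ˣ) :
    V.valuation ((u : lo V.toSubring D) : L) = 1 := by
  have h1 : ((u : lo V.toSubring D) : L) ∈ V := lo_le hDV (u : lo V.toSubring D).2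
  have h2 : (((u⁻¹ : (lo V.toSubring D)ˣ) : lo V.toSubring D) : L) ∈ V :=
    lo_le hDV ((u⁻¹ : (lo V.toSubring D)ˣ) : lo V.toSubring D).2
  have h3 : ((u : lo V.toSubring D) : L) *
      (((u⁻¹ : (lo V.toSubring D)ˣ) : lo V.toSubring D) : L) = 1 :=
    congrArg Subtype.val u.mul_inv
  have h4 := congrArg V.valuation h3
  rw [map_mul, map_one] at h4
  have h5 := (V.valuation_le_one_iff _).2 h1
  have h6 := (V.valuation_le_one_iff _).2 h2
  refine le_antisymm h5 ?_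
  rw [← h4]
  exact mul_le_of_le_one_right' h6

lemma unif_pow (hDV : D ≤ V.toSubring)
    (hQ : ∃ (_ : IsDiscreteValuationRing (lo V.toSubring D)) (h : ρ ∈ lo V.toSubring D),
      maximalIdeal (lo V.toSubring D) = Ideal.span {⟨ρ, h⟩}) {π : L} (hπ : π ∈ D)
    (hπ0 : π ≠ 0) : ∃ m : ℕ, V.valuation ρ ^ m = V.valuation π := by
  obtain ⟨hdvr, hρQ, hmax⟩ := hQ
  have hirr : Irreducible (⟨ρ, hρQ⟩ : lo V.toSubring D) :=
    (IsDiscreteValuationRing.irreducible_iff_uniformizer _).2 hmax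
  have hx0 : (⟨π, le_lo _ _ hπ⟩ : lo V.toSubring D) ≠ 0 := fun h =>
    hπ0 (congrArg Subtype.val h)
  obtain ⟨n, u, hu⟩ := IsDiscreteValuationRing.associated_pow_irreducible hx0 hirr
  refine ⟨n, ?_⟩
  have h1 := congrArg (fun z : lo V.toSubring D => V.valuation (z : L)) hu
  simp only [Subring.coe_mul, Subring.coe_pow, map_mul, map_pow] at h1
  rw [val_unit hDV u, mul_one] at h1
  exact h1.symm

lemma unif_gen (hDV : D ≤ V.toSubring)
    (hQ : ∃ (_ : IsDiscreteValuationRing (lo V.toSubring D)) (h : ρ ∈ lo V.toSubring D),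
      maximalIdeal (lo V.toSubring D) = Ideal.span {⟨ρ, h⟩}) {a : L} (ha : a ∈ D)
    (ha1 : V.valuation a < 1) :
    ∃ b ∈ D, ∃ c ∈ D, V.valuation c = 1 ∧ c * a = ρ * b := by
  obtain ⟨hdvr, hρQ, hmax⟩ := hQ
  have h1 : (⟨a, le_lo _ _ ha⟩ : lo V.toSubring D) ∈ maximalIdeal (lo V.toSubring D) := by
    rw [mem_maximalIdeal]
    rintro ⟨u, hu⟩
    have h2 := val_unit hDV u
    rw [hu] at h2
    exact ha1.ne h2
  rw [hmax, Ideal.mem_span_singleton'] at h1
  obtain ⟨⟨y, s, hs, t, ht, ht0, htV, rfl⟩, hy⟩ := h1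
  have h2 : s * t⁻¹ * ρ = a := congrArg Subtype.val hy
  refine ⟨s, hs, t, ht, ?_, ?_⟩
  · have h3 := (V.valuation_le_one_iff _).2 (hDV ht)
    have h4 : V.valuation t⁻¹ ≤ 1 := (V.valuation_le_one_iff _).2 htV
    rw [map_inv₀] at h4
    exact le_antisymm h3
      ((inv_le_one₀ (zero_lt_iff.2 ((_root_.map_ne_zero _).2 ht0))).1 h4)
  · rw [← h2]
    field_simp

end facts

/-- **Theorem.** Log uniformization over a separable lift gives semistable models. -/
theorem on_of_logUnif {K : Type u} [Field K] (V : ValuationSubring K) (O : Subring K)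
    [IsNoetherianRing O] (hO : ∀ a ∈ O, a ∈ V) (π : K) (hπ : π ∈ O) (hπ0 : π ≠ 0)
    (hπV : ∀ z : K, z ≠ 0 → ∃ n : ℕ, V.valuation π ^ n ≤ V.valuation z)
    (k : Subfield K) {L : Type u} [Field L] [Algebra K L] (VL : ValuationSubring L) (ρ : L)
    (hl : IsSeparableLift V O k VL ρ)
    (hdiv : ∀ p : ℕ, p.Prime → VL.valuation (p : L) < 1 → ∀ z : L, ∃ n : ℤ,
      VL.valuation (ρ / z ^ p) ^ n ≤ VL.valuation ρ)
    (W : Set K) (hW : W.Finite) (w : K) (hw : w ∈ W) (hw0 : w ≠ 0)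
    (hwV : ∀ z ∈ W, z / w ∈ V)
    (hfr : ∀ z : K, ∃ a ∈ chart O W w, ∃ b ∈ chart O W w, b ≠ 0 ∧ z = a * b⁻¹)
    (hLU : Mod VL (ch (Orm O ρ) (algebraMap K L '' W) (algebraMap K L w)) →
      LogUnif VL (ch (Orm O ρ) (algebraMap K L '' W) (algebraMap K L w))) :
    IsUniformizableOn V O k W := by
  classical
  obtain ⟨hVL, hgen, hρs, hQ⟩ := hl
  have hQ : ∃ (_ : IsDiscreteValuationRing (lo VL.toSubring (Orm O ρ)))
      (h : ρ ∈ lo VL.toSubring (Orm O ρ)),
      maximalIdeal (lo VL.toSubring (Orm O ρ)) = Ideal.span {⟨ρ, h⟩} := hQ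
  have hρD : ρ ∈ Orm O ρ := Subring.subset_closure (Or.inr rfl)
  obtain ⟨hρ0, hρ1⟩ := unif_nonunit hρD hQ
  have hρV : ρ ∈ VL := (VL.valuation_le_one_iff ρ).1 hρ1.le
  have hOL : ∀ a ∈ Orm O ρ, a ∈ VL := by
    have h1 : Orm O ρ ≤ VL.toSubring := by
      rw [Subring.closure_le]
      rintro z (⟨a, ha, rfl⟩ | hz)
      · exact (val_mem hVL).2 (hO a ha)
      · rw [Set.mem_singleton_iff.1 hz]
        exact hρV
    exact fun a ha => h1 ha
  have hOgen : ∀ a ∈ Orm O ρ, VL.valuation a < 1 →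
      ∃ b ∈ Orm O ρ, ∃ c ∈ Orm O ρ, VL.valuation c = 1 ∧ c * a = ρ * b :=
    fun a ha h1 => unif_gen (fun z hz => hOL z hz) hQ ha h1
  have hint : IsIntegral K ρ := by
    obtain ⟨P, hPs, hP0⟩ := hρs
    refine isAlgebraic_iff_isIntegral.1 ⟨P.map k.subtype, ?_, ?_⟩
    · rw [Polynomial.map_ne_zero_iff k.subtype.injective]
      exact hPs.ne_zero
    · rw [Polynomial.aeval_def, Polynomial.eval₂_map]
      exact hP0
  have hπL : algebraMap K L π ∈ Orm O ρ := Subring.subset_closure (Or.inl ⟨π, hπ, rfl⟩)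
  obtain ⟨m, hm⟩ := unif_pow (fun z hz => hOL z hz) hQ hπL ((_root_.map_ne_zero _).2 hπ0)
  have hMod := Pool.Agent.N98.VH.mod_alg hVL hgen O hOL W w hwV hfr
  -- noetherian rings
  have hOmap : IsNoetherianRing (O.map (algebraMap K L)) :=
    isNoetherianRing_of_surjective O _
      ((algebraMap K L).restrict O (O.map _) fun x hx => ⟨x, hx, rfl⟩) (by
          rintro ⟨_, x, hx, rfl⟩
          exact ⟨⟨x, hx⟩, rfl⟩)
  have hOrm : IsNoetherianRing (Orm O ρ) := p_noe _ _ (Set.finite_singleton ρ)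
  have hchn : IsNoetherianRing (ch (Orm O ρ) (algebraMap K L '' W) (algebraMap K L w)) := by
    refine p_noe _ _ (((hW.image (algebraMap K L)).image fun y => y / algebraMap K L w).subset ?_)
    rintro z ⟨y, hy, rfl⟩
    exact ⟨y, hy, rfl⟩
  have hSU := p_base _ _ hMod (hLU hMod)
  obtain ⟨T, n, X, hSt, hmon⟩ := hSU {ρ} (Set.finite_singleton ρ) (by
    rintro g rfl
    exact hρ0)
  obtain ⟨d, N₀, hd, hvd, h3⟩ := Pool.Agent.N98.VH.ss_main_genV Pool.Agent.H176.DT.p_et6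
    Pool.Agent.H176.DT.p_tor6 VL (Orm O ρ) hOL (hW.image _) ⟨w, hw, rfl⟩
    ((_root_.map_ne_zero _).2 hw0) (by
      rintro _ ⟨z, hz, rfl⟩
      rw [← map_div₀]
      exact (val_mem hVL).2 (hwV z hz)) hMod ρ hSt (hmon ρ rfl).1 hρ0 hρ1
    (Pool.Agent.N98.VH.cofinal_alg hVL hm hint hgen hπV)
    (fun q hq hq1 δ => hdiv q hq hq1 _)
  obtain ⟨t, ht, ht1⟩ := Pool.Agent.N98.VH.exists_unit_nat VL N₀
  have hd1 := Pool.Agent.N98.VH.unit_of_primes VL d hd hvd
  have hN1 : VL.valuation ((d * t : ℕ) : L) = 1 := by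
    rw [Nat.cast_mul, map_mul, hd1, ht1, one_mul]
  have hN2 : N₀ ≤ d * t := by
    calc N₀ ≤ t := ht.le
      _ ≤ d * t := Nat.le_mul_of_pos_left t hd
  have hN0 : 0 < d * t := Nat.mul_pos hd (by omega)
  obtain ⟨K', _, _, V', ϖ, hV', hϖ, hgen'⟩ :=
    Pool.Agent.H176.DT.exists_root VL ρ (N := d * t) hN0
  obtain ⟨Y, d', n', h4, h5, h6, w', h7, h8, h9, P, h10, h11⟩ :=
    h3 (d * t) hN2 (Dvd.intro t rfl) V' ϖ hV' hϖ hgen'
  letI iK : Algebra K K' := ((algebraMap L K').comp (algebraMap K L)).toAlgebra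
  have himg : algebraMap L K' '' (algebraMap K L '' W) = algebraMap K K' '' W := by
    rw [Set.image_image]
    rfl
  have horm : Pool.Agent.H176.DT.Orm (Pool.Agent.H176.DT.Orm O ρ) ϖ =
      ramifiedRing (algebraMap K K') O ϖ := Pool.Agent.N98.VG.orm_orm O ρ ϖ (d * t) hϖ
  rw [himg, horm] at h5
  rw [himg, horm] at h6
  rw [himg] at h7 h9
  rw [himg, horm] at h10
  have hV2 : V'.comap (algebraMap K K') = V := by
    rw [← hVL, ← hV']
    rfl
  have hOV' : ∀ a : K, a ∈ V → algebraMap K K' a ∈ V' := fun a ha =>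
    (Pool.Agent.N98.VG.val_mem hV2).2 ha
  have hρ1' : V'.valuation (algebraMap L K' ρ) < 1 :=
    (Pool.Agent.N98.VG.val_lt_one hV').2 hρ1
  have hϖ1 : V'.valuation ϖ < 1 := by
    by_contra hcon
    push Not at hcon
    have h13 : 1 ≤ V'.valuation ϖ ^ (d * t) := one_le_pow₀ hcon
    rw [← map_pow, hϖ] at h13
    exact absurd hρ1' (not_lt.2 h13)
  have hϖV : ϖ ∈ V' := (V'.valuation_le_one_iff _).1 hϖ1.le
  have hϖ0 : ϖ ≠ 0 := by
    rintro rfl
    rw [zero_pow hN0.ne'] at hϖ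
    exact hρ0 ((_root_.map_eq_zero _).1 hϖ.symm)
  have hN3 : ((d * t : ℕ) : K') ≠ 0 := by
    intro h0
    have h13 : V'.valuation ((d * t : ℕ) : K') = 1 := by
      rw [← map_natCast (algebraMap L K')]
      exact (Pool.Agent.N98.VG.val_eq_one hV').2 hN1
    rw [h0, map_zero] at h13
    exact zero_ne_one h13
  -- the ring of integers
  have hON : IsNoetherianRing ((Pool.Agent.H176.DT.Orm O ρ).map (algebraMap L K')) :=
    isNoetherianRing_of_surjective (Pool.Agent.H176.DT.Orm O ρ) _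
      ((algebraMap L K').restrict (Pool.Agent.H176.DT.Orm O ρ)
        ((Pool.Agent.H176.DT.Orm O ρ).map _) fun x hx => ⟨x, hx, rfl⟩) (by
          rintro ⟨_, x, hx, rfl⟩
          exact ⟨⟨x, hx⟩, rfl⟩)
  obtain ⟨hdvr, hϖQ, hmax⟩ := Pool.Agent.H176.DT.dvr_ram V'
    ((Pool.Agent.H176.DT.Orm O ρ).map (algebraMap L K'))
    (by
      rintro _ ⟨a, ha, rfl⟩
      exact (Pool.Agent.N98.VG.val_mem hV').2 (hOL a ha)) (algebraMap L K' ρ) ϖ hN0 hϖ hϖ0 hϖ1
    (by
      rintro _ ⟨a, ha, rfl⟩ h1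
      obtain ⟨b, hb, c, hc, hc1, hcb⟩ :=
        hOgen a ha ((Pool.Agent.N98.VG.val_lt_one hV').1 h1)
      refine ⟨_, ⟨b, hb, rfl⟩, _, ⟨c, hc, rfl⟩, ?_, ?_⟩
      · exact (Pool.Agent.N98.VG.val_eq_one hV').2 hc1
      · simp only [← map_mul, hcb])
  have hunif : IsUniformizer (centreRing V' (ramifiedRing (algebraMap K K') O ϖ)) ϖ := by
    rw [← horm]
    exact ⟨hdvr, hϖQ, hmax⟩
  refine ⟨K', inferInstance, iK, V', ϖ, ⟨hV2, ?_, ?_, hunif⟩, Y, ⟨h4, d', n', h5, h6⟩,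
    fun V₁ hV₁ hϖ₁ => ⟨w', h7, h8, fun z hz => hV₁ (h9 z hz), ?_⟩⟩
  · intro z
    have h12 : Subfield.closure (Set.range (algebraMap L K') ∪ {ϖ}) ≤
        Subfield.closure (Set.range (algebraMap K K') ∪ {ϖ}) := by
      rw [Subfield.closure_le]
      rintro y (⟨a, rfl⟩ | hy)
      · have h13 : Subfield.closure (Set.range (algebraMap K L) ∪ {ρ}) ≤
            (Subfield.closure (Set.range (algebraMap K K') ∪ {ϖ})).comap (algebraMap L K') := by
          rw [Subfield.closure_le]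
          rintro y (⟨b, rfl⟩ | hy)
          · exact Subfield.subset_closure (Or.inl ⟨b, rfl⟩)
          · rw [Set.mem_singleton_iff.1 hy]
            have h14 : algebraMap L K' ρ ∈
                Subfield.closure (Set.range (algebraMap K K') ∪ {ϖ}) := by
              have h15 : ϖ ∈ Subfield.closure (Set.range (algebraMap K K') ∪ {ϖ}) :=
                Subfield.subset_closure (Or.inr rfl)
              rw [← hϖ]
              exact pow_mem h15 _
            exact h14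
        exact h13 (hgen a)
      · exact Subfield.subset_closure (Or.inr hy)
    exact h12 (hgen' z)
  · exact Pool.Agent.N98.VH.sep_root k ρ hρ0 hρs ϖ (d * t) hN3 hϖ
  subst h10
  refine Pool.Agent.N98.SS.semi_coarse V' V₁ hV₁ _ ?_ ϖ hϖ₁ h11
  unfold chart
  rw [Subring.closure_le]
  rintro z (hz | ⟨y, hy, rfl⟩)
  · refine (?_ : ramifiedRing (algebraMap K K') O ϖ ≤ V'.toSubring) hz
    change Subring.closure ((O.map (algebraMap K K') : Set K') ∪ {ϖ}) ≤ _
    rw [Subring.closure_le]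
    rintro z (⟨a, ha, rfl⟩ | hz)
    · exact hOV' a (hO a ha)
    · rw [Set.mem_singleton_iff.1 hz]
      exact hϖV
  · exact h9 y hy

end Pool.Agent.V5helper93.TS
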