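import Pool.Agent.V5helper93.TS.Tow
import Pool.Agent.V5helper93.TS.Lift

/-!
# The points `(ζ, V)` of `X^ad` with `V` reached by a tower without defect
-/

set_option autoImplicit false

universe u

namespace Pool.Agent.V5helper93.TS

open IsLocalRing Pool.Agent.TH188.QS Pool.Agent.H176.DT
open Pool.Agent.W418.LU2 hiding chart
open Pool.Agent.Results.MP_1a953e_ag.SeparableUniformization
open Pool.Agent.Results.MP_1a953e_ag.ArbitrarySupports (IsLocalRingAt valueRing valuesAt
  IsUniformizable)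
open Pool.Agent.Results.MP_1a953e_ag.SupportReduction (IsUniformizableOn)
open Pool.Agent.V5helper88.SP (ded_equiv base_equiv)
open Pool.Agent.R187.CT (fr_iff)

section vals

variable {K F : Type u} [Field K] [Field F] {O : Subring K} {W : Set K} {R : Subring K}
  {res : R →+* F}

lemma valuesAt_finite (hW : W.Finite) : (valuesAt res W).Finite := by
  have h1 : valuesAt res W = res '' (Subtype.val ⁻¹' W) := by
    ext z
    constructor
    · rintro ⟨x, hx, rfl⟩
      exact ⟨x, hx, rfl⟩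
    · rintro ⟨x, hx, rfl⟩
      exact ⟨x, hx, rfl⟩
  rw [h1]
  exact (hW.preimage Subtype.val_injective.injOn).image _

lemma chart_values (hR : chart O W 1 ≤ R) (a : R) (ha : (a : K) ∈ chart O W 1) :
    res a ∈ chart (valueRing res O) (valuesAt res W) 1 := by
  have h1 : chart O W 1 ≤
      ((chart (valueRing res O) (valuesAt res W) 1).comap res).map R.subtype := by
    change Subring.closure _ ≤ _
    rw [Subring.closure_le]
    rintro z (hz | ⟨v, hv, rfl⟩)
    · have hzR : z ∈ R := hR (Subring.subset_closure (Or.inl hz))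
      exact ⟨⟨z, hzR⟩, Subring.subset_closure (Or.inl ⟨⟨z, hzR⟩, hz, rfl⟩), rfl⟩
    · have hvR : v / 1 ∈ R := hR (Subring.subset_closure (Or.inr ⟨v, hv, rfl⟩))
      rw [div_one] at hvR ⊢
      refine ⟨⟨v, hvR⟩, Subring.subset_closure (Or.inr ⟨res ⟨v, hvR⟩, ⟨⟨v, hvR⟩, hv, rfl⟩, ?_⟩),
        rfl⟩
      rw [div_one]
  obtain ⟨b, hb, hba⟩ := h1 ha
  have h2 : b = a := Subtype.ext hba
  rw [← h2]
  exact hb

end vals

section blow

variable {F : Type u} [Field F] {O : Subring F} {W Y : Set F}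

open Pointwise in
/-- A vertical centre contains a nonzero form. -/
lemma vert_ne {p : F} (hp : p ≠ 0) (h1 : (1 : F) ∈ W) (hY : IsVerticalCentre O p W Y) :
    ∃ y ∈ Y, y ≠ 0 := by
  obtain ⟨-, d, n, -, h⟩ := hY
  by_contra hcon
  push Not at hcon
  have h2 : (1 : F) ∈ (Submodule.span O W) ^ d := by
    have h3 : (1 : F) ^ d ∈ (Submodule.span O W) ^ d :=
      Submodule.pow_mem_pow _ (Submodule.subset_span h1) d
    rwa [one_pow] at h3
  have h3 := h 1 h2
  have h4 : Submodule.span O Y ≤ ⊥ := by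
    rw [Submodule.span_le]
    intro y hy
    exact hcon y hy
  have h5 : p ^ n * 1 = 0 := h4 h3
  rw [mul_one] at h5
  exact pow_ne_zero n hp h5

/-- The function field of the blowing-up. -/
lemma blow_frac (h1 : (1 : F) ∈ W)
    (hF : ∀ z : F, ∃ a ∈ chart O W 1, ∃ b ∈ chart O W 1, b ≠ 0 ∧ z = a / b) {w : F}
    (hw : w ∈ blowUpCoordinates W Y) (hw0 : w ≠ 0) (z : F) :
    ∃ a ∈ chart O (blowUpCoordinates W Y) w, ∃ b ∈ chart O (blowUpCoordinates W Y) w,
      b ≠ 0 ∧ z = a * b⁻¹ := by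
  obtain ⟨y, hy, v, hv, rfl⟩ := hw
  set B := chart O (blowUpCoordinates W Y) (y * v) with hB
  have hy0 : y ≠ 0 := left_ne_zero_of_mul hw0
  have hv0 : v ≠ 0 := right_ne_zero_of_mul hw0
  have h2 : ∀ u ∈ W, u / v ∈ fr B := by
    intro u hu
    refine le_fr _ ?_
    refine Subring.subset_closure (Or.inr ⟨y * u, ⟨y, hy, u, hu, rfl⟩, ?_⟩)
    rw [mul_div_mul_left _ _ hy0]
  have h3 : ∀ u ∈ W, u ∈ fr B := by
    intro u hu
    have h4 := div_mem (h2 u hu) (h2 1 h1)
    rwa [div_div_div_cancel_right₀ hv0, div_one] at h4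
  have h4 : chart O W 1 ≤ (fr B).toSubring := by
    change Subring.closure _ ≤ _
    rw [Subring.closure_le]
    rintro x (hx | ⟨u, hu, rfl⟩)
    · exact le_fr _ (Subring.subset_closure (Or.inl hx))
    · rw [div_one]
      exact h3 u hu
  obtain ⟨a, ha, b, hb, hb0, rfl⟩ := hF z
  exact fr_iff.2 (div_mem (h4 ha) (h4 hb))

/-- The chart which contains the centre of a valuation ring. -/
lemma exists_max_coord (V : ValuationSubring F) (hW : W.Finite) (h : ∃ y ∈ W, y ≠ 0) :
    ∃ w ∈ W, w ≠ 0 ∧ ∀ z ∈ W, z / w ∈ V := by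
  obtain ⟨w, hw, hmax⟩ := Set.exists_max_image W V.valuation hW (h.imp fun y hy => hy.1)
  obtain ⟨y, hy, hy0⟩ := h
  have hw0 : w ≠ 0 := by
    rintro rfl
    have h1 := hmax y hy
    rw [map_zero] at h1
    exact hy0 ((_root_.map_eq_zero _).1 (le_antisymm h1 zero_le))
  refine ⟨w, hw, hw0, fun z hz => ?_⟩
  rw [← V.valuation_le_one_iff, map_div₀]
  exact div_le_one_of_le₀ (hmax z hz) zero_le

end blow

/-- The ring isomorphism to the values. -/
lemma exists_equiv {K F : Type u} [Field K] [Field F] {O : Subring K} {R : Subring K}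
    {res : R →+* F} (hOR : O ≤ R) (hζ : ∀ a : R, (a : K) ∈ O → res a = 0 → a = 0) :
    Nonempty (O ≃+* valueRing res O) := by
  refine ⟨RingEquiv.ofBijective ((res.comp (Subring.inclusion hOR)).codRestrict
      (valueRing res O) fun a => ⟨⟨a, hOR a.2⟩, a.2, rfl⟩) ⟨?_, ?_⟩⟩
  · rw [injective_iff_map_eq_zero]
    intro a ha
    have h1 : res ⟨a, hOR a.2⟩ = 0 := congrArg Subtype.val ha
    have h2 := hζ ⟨a, hOR a.2⟩ a.2 h1
    exact Subtype.ext (congrArg (fun r : R => (r : K)) h2)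
  · rintro ⟨_, a, ha, rfl⟩
    exact ⟨⟨a, ha⟩, rfl⟩

/-- **Theorem.** -/
theorem main {K F : Type u} [Field K] [Field F]
    (O : Subring K) [IsDedekindDomain O] (hOb : IsBase O)
    (k : Subfield K) (hk : k = Subfield.closure (O : Set K))
    (W : Set K) (hW : W.Finite) (hW1 : (1 : K) ∈ W)
    (hK : ∀ z : K, ∃ a ∈ chart O W 1, ∃ b ∈ chart O W 1, b ≠ 0 ∧ z = a / b)
    (R : Subring K) [IsRegularLocalRing R]
    (res : R →+* F) (hR : IsLocalRingAt (chart O W 1) R res)
    (hζ : ∀ a : R, (a : K) ∈ O → res a = 0 → a = 0)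
    (k₁ : Subfield F) (hk₁ : k₁ = Subfield.closure (valueRing res O : Set F))
    (V : ValuationSubring F) (hV : ∀ a : R, (a : K) ∈ chart O W 1 → res a ∈ V)
    (π : R) (hπ : (π : K) ∈ O) (hπ0 : π ≠ 0) (hπ1 : V.valuation (res π) < 1)
    (hπV : ∀ z : F, z ≠ 0 → ∃ n : ℕ, V.valuation (res π) ^ n ≤ V.valuation z)
    {L : Type u} [Field L] [Algebra F L] (VL : ValuationSubring L) (ρ : L)
    (hl : IsSeparableLift V (valueRing res O) k₁ VL ρ)
    (hdiv : ∀ p : ℕ, p.Prime → VL.valuation (p : L) < 1 → ∀ z : L, ∃ n : ℤ,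
      VL.valuation (ρ / z ^ p) ^ n ≤ VL.valuation ρ)
    (hr : Reached (valueRing res O) ((algebraMap F L).comp (valueRing res O).subtype) VL) :
    IsUniformizable O k W res k₁ V (π : K) := by
  have hAR : chart O W 1 ≤ R := hR.1
  have hOA : O ≤ chart O W 1 := fun a ha => Subring.subset_closure (Or.inl ha)
  obtain ⟨e⟩ := exists_equiv (hOA.trans hAR) hζ
  have hded : IsDedekindDomain (valueRing res O) := ded_equiv e
  have hbase : IsBase (valueRing res O) := base_equiv e hOb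
  have hHJ : HJ (valueRing res O) := hbase.hj
  have hOV : ∀ a ∈ valueRing res O, a ∈ V := by
    rintro _ ⟨a, ha, rfl⟩
    exact hV a (hOA ha)
  have hres : res π ≠ 0 := fun h => hπ0 (hζ π hπ h)
  have hF : ∀ z : F, ∃ a ∈ chart (valueRing res O) (valuesAt res W) 1,
      ∃ b ∈ chart (valueRing res O) (valuesAt res W) 1, b ≠ 0 ∧ z = a / b := by
    intro z
    obtain ⟨y, rfl⟩ := hR.2.1 z
    obtain ⟨a, b, ha, hb, hb0, hab⟩ := hR.2.2.2 y
    refine ⟨res a, chart_values hAR a ha, res b, chart_values hAR b hb, hb0, ?_⟩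
    rw [eq_div_iff hb0, mul_comm, ← map_mul, hab]
  have h1 : (1 : F) ∈ valuesAt res W := ⟨1, hW1, map_one res⟩
  refine Pool.Agent.Results.MP_1a953e_ag.SupportReduction.result O k hk W hW hW1 hK R res hR hζ
    k₁ hk₁ V hV π hπ hπ0 hπ1 hπV fun Y hY => ?_
  have hYf : Y.Finite := hY.1
  set W₁ := blowUpCoordinates (valuesAt res W) Y with hW₁
  have hW₁f : W₁.Finite := by
    have h2 : W₁ ⊆ Set.image2 (fun y v => y * v) Y (valuesAt res W) := by
      rintro z ⟨y, hy, v, hv, rfl⟩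
      exact ⟨y, hy, v, hv, rfl⟩
    exact (hYf.image2 _ (valuesAt_finite hW)).subset h2
  obtain ⟨y, hy, hy0⟩ := vert_ne hres h1 hY
  obtain ⟨w, hw, hw0, hwV⟩ := exists_max_coord V hW₁f
    ⟨y * 1, ⟨y, hy, 1, h1, rfl⟩, by rwa [mul_one]⟩
  refine on_of_logUnif V (valueRing res O) hOV (res π) ⟨π, hπ, rfl⟩ hres hπV k₁ VL ρ hl hdiv W₁
    hW₁f w hw hw0 hwV (blow_frac h1 hF hw hw0) fun hMod => ?_
  have hrange : ((((algebraMap F L).comp (valueRing res O).subtype).range : Subring L) : Set L) =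
      ((valueRing res O).map (algebraMap F L) : Set L) := by
    ext z
    constructor
    · rintro ⟨a, rfl⟩
      exact ⟨a, a.2, rfl⟩
    · rintro ⟨a, ha, rfl⟩
      exact ⟨⟨a, ha⟩, rfl⟩
  refine logUnif_of_reached hHJ hr
    (T := {ρ} ∪ (fun y => y / algebraMap F L w) '' (algebraMap F L '' W₁))
    ((Set.finite_singleton ρ).union ((hW₁f.image _).image _)) ?_ hMod.1 hMod.2
  rw [hrange]
  apply le_antisymm
  · rw [Subring.closure_le]
    rintro z (hz | ⟨y, hy, rfl⟩)
    · refine (?_ : Orm (valueRing res O) ρ ≤ _) hz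
      rw [Subring.closure_le]
      rintro x (hx | hx)
      · exact Subring.subset_closure (Or.inl hx)
      · exact Subring.subset_closure (Or.inr (Or.inl hx))
    · exact Subring.subset_closure (Or.inr (Or.inr ⟨y, hy, rfl⟩))
  · rw [Subring.closure_le]
    rintro z (hz | hz | ⟨y, hy, rfl⟩)
    · exact Subring.subset_closure (Or.inl (Subring.subset_closure (Or.inl hz)))
    · exact Subring.subset_closure (Or.inl (Subring.subset_closure (Or.inr hz)))
    · exact Subring.subset_closure (Or.inr ⟨y, hy, rfl⟩)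

end Pool.Agent.V5helper93.TS
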