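import Pool.Agent.Results.MP_1a953e_ag.TowersOverPoints
import Pool.Agent.TH188.QS.Cls

/-!
# Log uniformization of the valuation rings, of any rank, which are reached without defect
-/

set_option autoImplicit false

universe u

namespace Pool.Agent.V5helper93.TS

open IsLocalRing Pool.Agent.W418.LU2 Pool.Agent.TH188.QS
open Pool.Agent.Results.MP_1a953e_ag.TowersOverPoints (Tower IsDivergent HasFractionField
  IsLogUniformizable)

/-- The valuation rings `V`, of any rank, of fields `L` with a homomorphism `f : O → L`, which are
*reached without defect*: the smallest class with the following properties.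

* `trivial`, `discrete`: it contains the trivial valuation rings and the discrete valuation rings;
* `divergent`: it contains the valuation rings `V` with divergent sequences of quadratic transforms of
  all `O`-algebras `A ⊆ V` of finite type;
* `uniformizable`: it contains the valuation rings `V` of finitely generated fields `L` which are log
  uniformizable on `Spec A` for all `O`-algebras `A ⊆ V` of finite type with the fraction field `L`;
* `composite`: it contains the composite `V` of a valuation ring `V₁` of `L` and of a valuation ring
  `V₂` of the residue field of `V₁`, if it contains `V₁` and `V₂`;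
* `tower`: it contains `V`, if it contains the restriction of `V` to a subfield `E` of `L`, finitely
  generated over `O`, and if `L` is reached from `E` by a tower of transcendental steps without limit
  key polynomials and of finite extensions without defect with respect to `V`. -/
inductive Reached (O : Type u) [CommRing O] :
    ∀ {L : Type u} [Field L], (O →+* L) → ValuationSubring L → Prop
  | trivial {L : Type u} [Field L] (f : O →+* L) : Reached O f ⊤
  | discrete {L : Type u} [Field L] (f : O →+* L) (V : ValuationSubring L)
      (h : IsDiscreteValuationRing V) : Reached O f V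
  | divergent {L : Type u} [Field L] (f : O →+* L) (V : ValuationSubring L)
      (h : ∀ T : Set L, T.Finite → Subring.closure ((f.range : Set L) ∪ T) ≤ V.toSubring →
        IsDivergent V (Subring.closure ((f.range : Set L) ∪ T))) : Reached O f V
  | uniformizable {L : Type u} [Field L] (f : O →+* L) (V : ValuationSubring L)
      (hL : ∃ S : Set L, S.Finite ∧ HasFractionField (Subring.closure ((f.range : Set L) ∪ S)))
      (h : ∀ T : Set L, T.Finite → Subring.closure ((f.range : Set L) ∪ T) ≤ V.toSubring →
        HasFractionField (Subring.closure ((f.range : Set L) ∪ T)) →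
        IsLogUniformizable V (Subring.closure ((f.range : Set L) ∪ T))) : Reached O f V
  | composite {L : Type u} [Field L] (f : O →+* L) (V V₁ : ValuationSubring L)
      (V₂ : ValuationSubring (ResidueField V₁)) (hf : ∀ a, f a ∈ V₁.toSubring)
      (hV : ∀ z : L, z ∈ V ↔ ∃ hz : z ∈ V₁, residue V₁ ⟨z, hz⟩ ∈ V₂)
      (h₁ : Reached O f V₁)
      (h₂ : Reached O ((residue V₁).comp (f.codRestrict V₁.toSubring hf)) V₂) : Reached O f V
  | tower {L : Type u} [Field L] (E : Subfield L) (g : O →+* E) (V : ValuationSubring L)
      (hg : ∀ a, (g a : L) ∈ V)
      (hE : ∃ S : Set E, S.Finite ∧ HasFractionField (Subring.closure ((g.range : Set E) ∪ S)))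
      (h : Reached O g (V.comap E.subtype)) (hT : Tower E V ⊤) : Reached O (E.subtype.comp g) V

theorem Reached.good {O : Type u} [CommRing O] (hR : HJ O) {L : Type u} [Field L] {f : O →+* L}
    {V : ValuationSubring L} (h : Reached O f V) : Pool.Agent.R187.CT.Good f V := by
  induction h with
  | trivial f => exact Pool.Agent.R187.CT.good_top f
  | discrete f V h => exact Pool.Agent.R187.CT.good_dv hR f V (Or.inl h)
  | divergent f V h =>
    exact Pool.Agent.R187.CT.good_dv hR f V (Or.inr fun T hT hTV => (h T hT hTV).dv)
  | uniformizable f V hL h =>
    exact Pool.Agent.R187.CT.good_given hR f V hL fun T hT hTV hTE => h T hT hTV hTE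
  | composite f V V₁ V₂ hf hV _ _ ih₁ ih₂ =>
    exact Pool.Agent.R187.CT.good_comp hR f hf hV ih₁ ih₂
  | @tower L _ E g V hg hE _ hT ih =>
    have h1 : Pool.Agent.R187.CT.Good ((algebraMap E L).comp g) V := by
      refine Pool.Agent.R187.CT.good_tower hR g V hg hE ih fun R' h0 => hT.inv ?_
      have h1 : ∀ X : Subfield L, X = E → Pool.Agent.H176.DT.Inv V R' X.subtype →
          Pool.Agent.H176.DT.Inv V R' E.subtype := by
        rintro X rfl h
        exact h
      exact h1 _ (Subfield.fieldRange_subtype E) h0
    exact h1

theorem logUnif_of_reached {O L : Type u} [CommRing O] (hR : HJ O) [Field L] {f : O →+* L}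
    {V : ValuationSubring L} (h : Reached O f V) {T : Set L} (hT : T.Finite) {B : Subring L}
    (hB : B = Subring.closure ((f.range : Set L) ∪ T)) (hBV : B ≤ V.toSubring)
    (hBK : ∀ z : L, ∃ a ∈ B, ∃ b ∈ B, b ≠ 0 ∧ z = a * b⁻¹) : LogUnif V B := by
  have hch : B = Pool.Agent.R187.CT.rg f T := hB
  exact (h.good hR).logUnif hR hT hBV hch.ge
      (fun b hb => ⟨b, by rw [← hch]; exact hb, 1, Subring.one_mem _, one_ne_zero,
        by rw [inv_one]; exact Subring.one_mem _, by rw [inv_one, mul_one]⟩) hBK

end Pool.Agent.V5helper93.TS
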